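import Pool.Agent.H24.Tri.Defs

set_option autoImplicit false

open MeasureTheory Set Complex Metric Filter Topology
open scoped Real ENNReal NNReal FourierTransform ComplexConjugate

namespace Pool.Agent.H24.Tri

/-- closed squares of the frequency plane -/
def sq (s : ℝ) (n : ℤ × ℤ) : Set ℂ := {k | |k.re - s * n.1| ≤ s ∧ |k.im - s * n.2| ≤ s}

/-- mass measure of a symbol in the normalised frequency plane -/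
noncomputable def mu (c : ℂ) (a : ℂ → ℂ) : Measure ℂ :=
  (volume.withDensity fun ξ => ‖a ξ‖ₑ ^ 2).map (fun ξ => ξ / c)

/-- small scale constant -/
noncomputable def eta0 (ρ : ℂ) : ℝ := (‖ρ‖ + ‖ρ - 1‖ + ‖ρ‖ * ‖ρ - 1‖)⁻¹ / 100

/-- admissible triples of squares -/
def Good (M : ℝ) (n₁ n₂ n₃ : ℤ × ℤ) : Prop :=
  (90 ≤ ‖gi (n₁ - n₂)‖ ∧ ‖gi (n₁ - n₂)‖ ≤ M) ∧ (90 ≤ ‖gi (n₁ - n₃)‖ ∧ ‖gi (n₁ - n₃)‖ ≤ M) ∧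
    (90 ≤ ‖gi (n₂ - n₃)‖ ∧ ‖gi (n₂ - n₃)‖ ≤ M)

/-- the mass of the points of the square around which there is little mass at scale `t` -/
noncomputable def thin (μ : Measure ℂ) (s : ℝ) (n : ℤ × ℤ) (t δ : ℝ) : ℝ :=
  μ.real {x | x ∈ sq s n ∧ μ.real (closedBall x t) ≤ δ}

/-- the form of three pieces at scale `S` -/
noncomputable def pf (ρ : ℂ) (S : ℝ) (n₁ n₂ n₃ : ℤ × ℤ) (a₁ a₂ a₃ : ℂ → ℂ) : ℂ :=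
  LamK ρ (kR S) (𝓕⁻ (piece (c1 ρ) (eta0 ρ * S) n₁ a₁)) (𝓕⁻ (piece (c2 ρ) (eta0 ρ * S) n₂ a₂))
    (𝓕⁻ (piece c3 (eta0 ρ * S) n₃ a₃))

/-- the statement of `ss` for one `ρ` -/
def PropSS (ρ : ℂ) : Prop :=
  ∀ C₀ V ε : ℝ, 0 < C₀ → 0 < V → 0 < ε → ∃ R₀ : ℝ, 1 ≤ R₀ ∧ ∀ R : ℝ, R₀ ≤ R →
      ∀ a₁ a₂ a₃ : ℂ → ℂ, Nice a₁ → Nice a₂ → Nice a₃ →
      (∀ ξ, C₀ * R < ‖ξ‖ → a₁ ξ = 0) → (∀ ξ, C₀ * R < ‖ξ‖ → a₂ ξ = 0) →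
      (∀ ξ, C₀ * R < ‖ξ‖ → a₃ ξ = 0) →
      (∀ z, ‖𝓕⁻ a₁ z‖ ≤ 1) → (∀ z, ‖𝓕⁻ a₂ z‖ ≤ 1) → (∀ z, ‖𝓕⁻ a₃ z‖ ≤ 1) →
      (∫ ξ, ‖a₁ ξ‖ ^ 2) ≤ V → (∫ ξ, ‖a₂ ξ‖ ^ 2) ≤ V → (∫ ξ, ‖a₃ ξ‖ ^ 2) ≤ V →
      ‖LamK ρ (kR R) (𝓕⁻ a₁) (𝓕⁻ a₂) (𝓕⁻ a₃)‖ ≤ ε

end Pool.Agent.H24.Tri
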