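import Pool.Agent.H70.TriS.PartC
import Pool.Agent.H83.TriS.D

set_option autoImplicit false

open MeasureTheory Set Complex Metric Filter Topology
open scoped Real ENNReal NNReal FourierTransform ComplexConjugate

namespace Pool.Agent.H24.Tri

theorem c1_ne (ρ : ℂ) (hρ : ρ.im ≠ 0) : c1 ρ ≠ 0 := by
  intro h
  apply hρ
  have := congrArg Complex.im h
  simpa [c1] using this

theorem c2_ne (ρ : ℂ) (hρ : ρ.im ≠ 0) : c2 ρ ≠ 0 := by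
  intro h
  apply hρ
  have := congrArg Complex.im h
  simpa [c2] using this

theorem c3_ne : c3 ≠ 0 := one_ne_zero

theorem eta0_pos (ρ : ℂ) (hρ : ρ.im ≠ 0) : 0 < eta0 ρ := by
  have h : ρ ≠ 0 := by
    rintro rfl
    exact hρ rfl
  have h' : 0 < ‖ρ‖ := norm_pos_iff.mpr h
  unfold eta0
  positivity

/-- light part of the fine decomposition -/
theorem light_thin (μ : Measure ℂ) [IsFiniteMeasure μ] (s s' δ : ℝ) (n : ℤ × ℤ)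
    (L : Finset (ℤ × ℤ)) (hL : ∀ l ∈ L, μ.real {x | ∃ y ∈ sq s' l, dist x y ≤ s'} ≤ δ) :
    μ.real (sq s n ∩ ⋃ l ∈ L, sq s' l) ≤ thin μ s n s' δ := by
  unfold thin
  apply measureReal_mono _ (measure_ne_top _ _)
  rintro x ⟨hx, hx'⟩
  refine ⟨hx, ?_⟩
  simp only [mem_iUnion] at hx'
  obtain ⟨l, hl, hxl⟩ := hx'
  refine le_trans (measureReal_mono ?_ (measure_ne_top _ _)) (hL l hl)
  intro y hy
  exact ⟨x, hxl, mem_closedBall.mp hy⟩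

/-- generic fine decomposition -/
theorem heavy_gen (c : ℂ) (hc : c ≠ 0) (a : ℂ → ℂ) (ha : Nice a) (V δ s s' : ℝ)
    (hV : ∫ ξ, ‖a ξ‖ ^ 2 ≤ V) (hδ : 0 < δ) (hs : 0 < s) (hs' : 0 < s') (n : ℤ × ℤ)
    (lam : (ℂ → ℂ) → ℂ) (B C ε : ℝ) (hB : 0 ≤ B) (hC : 0 ≤ C) (hε : 0 ≤ ε)
    (hadd : ∀ F : Finset (ℤ × ℤ), lam (fun ξ => ∑ l ∈ F, piece c s' l (piece c s n a) ξ) =
      ∑ l ∈ F, lam (piece c s' l (piece c s n a)))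
    (hL2 : ∀ F : Finset (ℤ × ℤ), ‖lam (fun ξ => ∑ l ∈ F, piece c s' l (piece c s n a) ξ)‖ ≤
      C * B * Real.sqrt (∫ ξ, ‖∑ l ∈ F, piece c s' l (piece c s n a) ξ‖ ^ 2))
    (hf : ∀ l, ‖lam (piece c s' l (piece c s n a))‖ ≤ ε * B) :
    ‖lam (piece c s n a)‖ ≤
      (25 * V / δ * ε + C * Real.sqrt (thin (mu c a) s n s' δ)) * B := by
  classical
  have := mu_finite c a ha
  obtain ⟨F, hF⟩ := piece_sum c hc s' hs' (piece c s n a) (nice_piece c s n a ha)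
  set H := F.filter fun l => δ < (mu c a).real {x | ∃ y ∈ sq s' l, dist x y ≤ s'} with hH
  set L := F.filter fun l => ¬ δ < (mu c a).real {x | ∃ y ∈ sq s' l, dist x y ≤ s'} with hL
  have h1 : lam (piece c s n a) =
      ∑ l ∈ H, lam (piece c s' l (piece c s n a)) +
        lam (fun ξ => ∑ l ∈ L, piece c s' l (piece c s n a) ξ) := by
    rw [hadd L, hH, hL, Finset.sum_filter_add_sum_filter_not, ← hadd F, hF F (le_refl _)]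
  have hcard : (H.card : ℝ) ≤ 25 * V / δ := by
    rw [le_div_iff₀ hδ]
    calc (H.card : ℝ) * δ ≤ 25 * (mu c a).real univ :=
          heavy_count (mu c a) s' δ hs' hδ H (fun l hl => (Finset.mem_filter.mp hl).2)
      _ ≤ 25 * V := by
          rw [mu_univ c a ha]
          linarith
  have h2 : ‖∑ l ∈ H, lam (piece c s' l (piece c s n a))‖ ≤ 25 * V / δ * ε * B := by
    calc ‖∑ l ∈ H, lam (piece c s' l (piece c s n a))‖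
        ≤ ∑ l ∈ H, ‖lam (piece c s' l (piece c s n a))‖ := norm_sum_le _ _
      _ ≤ ∑ l ∈ H, ε * B := Finset.sum_le_sum fun l _ => hf l
      _ = H.card * (ε * B) := by rw [Finset.sum_const, nsmul_eq_mul]
      _ ≤ 25 * V / δ * (ε * B) := by
          apply mul_le_mul_of_nonneg_right hcard
          positivity
      _ = 25 * V / δ * ε * B := by ring
  have h3 : ‖lam (fun ξ => ∑ l ∈ L, piece c s' l (piece c s n a) ξ)‖ ≤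
      C * Real.sqrt (thin (mu c a) s n s' δ) * B := by
    calc ‖lam (fun ξ => ∑ l ∈ L, piece c s' l (piece c s n a) ξ)‖
        ≤ C * B * Real.sqrt (∫ ξ, ‖∑ l ∈ L, piece c s' l (piece c s n a) ξ‖ ^ 2) := hL2 L
      _ ≤ C * B * Real.sqrt (thin (mu c a) s n s' δ) := by
          apply mul_le_mul_of_nonneg_left _ (by positivity)
          apply Real.sqrt_le_sqrt
          refine (rem_l2 c hc s s' hs hs' n a ha L).trans ?_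
          apply light_thin
          intro l hl
          exact not_lt.mp (Finset.mem_filter.mp hl).2
      _ = C * Real.sqrt (thin (mu c a) s n s' δ) * B := by ring
  rw [h1]
  calc _ ≤ ‖∑ l ∈ H, lam (piece c s' l (piece c s n a))‖ +
        ‖lam (fun ξ => ∑ l ∈ L, piece c s' l (piece c s n a) ξ)‖ := norm_add_le _ _
    _ ≤ 25 * V / δ * ε * B + C * Real.sqrt (thin (mu c a) s n s' δ) * B := add_le_add h2 h3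
    _ = _ := by ring

theorem nice_sum {ι : Type} (F : Finset ι) (a : ι → ℂ → ℂ) (h : ∀ i ∈ F, Nice (a i)) :
    Nice (fun ξ => ∑ i ∈ F, a i ξ) := by
  classical
  induction F using Finset.induction_on with
  | empty =>
    refine ⟨by simpa using contDiff_const, ?_⟩
    have : (fun ξ : ℂ => ∑ i ∈ (∅ : Finset ι), a i ξ) = 0 := by
      funext ξ
      simp
    rw [this]
    exact HasCompactSupport.zero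
  | insert i s hi ih =>
    have h1 := h i (Finset.mem_insert_self i s)
    have h2 := ih fun j hj => h j (Finset.mem_insert_of_mem hj)
    have : (fun ξ : ℂ => ∑ j ∈ insert i s, a j ξ) = fun ξ => a i ξ + ∑ j ∈ s, a j ξ := by
      funext ξ
      rw [Finset.sum_insert hi]
    rw [this]
    exact ⟨h1.smooth.add h2.smooth, h1.compact.add h2.compact⟩

theorem lamK_sum3 (ρ : ℂ) (hρ : ρ.im ≠ 0) (S : ℝ) (hS : 0 < S) (F : Finset (ℤ × ℤ))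
    (a₁ a₂ : ℂ → ℂ) (a₃ : ℤ × ℤ → ℂ → ℂ) (h₁ : Nice a₁) (h₂ : Nice a₂)
    (h₃ : ∀ n, Nice (a₃ n)) :
    LamK ρ (kR S) (𝓕⁻ a₁) (𝓕⁻ a₂) (𝓕⁻ (fun ξ => ∑ n ∈ F, a₃ n ξ)) =
      ∑ n ∈ F, LamK ρ (kR S) (𝓕⁻ a₁) (𝓕⁻ a₂) (𝓕⁻ (a₃ n)) := by
  have := lamK_sum ρ hρ S hS {0} {0} F (fun _ => a₁) (fun _ => a₂) a₃ (fun _ => h₁) (fun _ => h₂) h₃
  simpa using this

theorem lamK_sum2 (ρ : ℂ) (hρ : ρ.im ≠ 0) (S : ℝ) (hS : 0 < S) (F : Finset (ℤ × ℤ))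
    (a₁ : ℂ → ℂ) (a₂ : ℤ × ℤ → ℂ → ℂ) (a₃ : ℂ → ℂ) (h₁ : Nice a₁) (h₂ : ∀ n, Nice (a₂ n))
    (h₃ : Nice a₃) :
    LamK ρ (kR S) (𝓕⁻ a₁) (𝓕⁻ (fun ξ => ∑ n ∈ F, a₂ n ξ)) (𝓕⁻ a₃) =
      ∑ n ∈ F, LamK ρ (kR S) (𝓕⁻ a₁) (𝓕⁻ (a₂ n)) (𝓕⁻ a₃) := by
  have := lamK_sum ρ hρ S hS {0} F {0} (fun _ => a₁) a₂ (fun _ => a₃) (fun _ => h₁) h₂ (fun _ => h₃)
  simpa using this

/-- numerical choice of the parameters of the fine decomposition -/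
theorem heavy_param (V δ τ C : ℝ) (hV : 0 < V) (hδ : 0 < δ) (hτ : 0 < τ) (hC : 0 ≤ C) :
    ∃ ε lam : ℝ, 0 < ε ∧ 0 < lam ∧ ∀ t : ℝ, t ≤ lam → 25 * V / δ * ε + C * Real.sqrt t ≤ τ := by
  refine ⟨τ / 2 / (25 * V / δ + 1), (τ / 2 / (C + 1)) ^ 2, by positivity, by positivity, ?_⟩
  intro t ht
  have h1 : 25 * V / δ * (τ / 2 / (25 * V / δ + 1)) ≤ τ / 2 := by
    have h : 0 < 25 * V / δ := by positivity
    rw [mul_div_assoc', div_le_iff₀ (by positivity)]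
    nlinarith
  have h2 : Real.sqrt t ≤ τ / 2 / (C + 1) := by
    rw [show τ / 2 / (C + 1) = Real.sqrt ((τ / 2 / (C + 1)) ^ 2) from
      (Real.sqrt_sq (by positivity)).symm]
    exact Real.sqrt_le_sqrt ht
  have h3 : C * Real.sqrt t ≤ τ / 2 := by
    calc C * Real.sqrt t ≤ C * (τ / 2 / (C + 1)) := mul_le_mul_of_nonneg_left h2 hC
      _ ≤ τ / 2 := by
        rw [mul_div_assoc', div_le_iff₀ (by positivity)]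
        nlinarith
  linarith

theorem heavy3 (ρ : ℂ) (hi : ρ.im ≠ 0) (h0 : ρ.re ≠ 0) (h1 : ρ.re ≠ 1) (hss : PropSS ρ)
    (M V δ τ : ℝ)
    (hV : 0 < V) (hδ : 0 < δ) (hτ : 0 < τ) : ∃ lam η : ℝ, 0 < lam ∧ 0 < η ∧
    ∀ ε₂ : ℝ, 0 < ε₂ → ∃ R₀ : ℝ, 1 ≤ R₀ ∧ ∀ S : ℝ, R₀ ≤ S → ∀ a₁ a₂ a₃ : ℂ → ℂ,
      Nice a₁ → Nice a₂ → Nice a₃ →
      (∀ z, ‖𝓕⁻ a₁ z‖ ≤ 1) → (∀ z, ‖𝓕⁻ a₂ z‖ ≤ 1) → (∀ z, ‖𝓕⁻ a₃ z‖ ≤ 1) →
      (∫ ξ, ‖a₁ ξ‖ ^ 2) ≤ V → (∫ ξ, ‖a₂ ξ‖ ^ 2) ≤ V → (∫ ξ, ‖a₃ ξ‖ ^ 2) ≤ V →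
      ∀ n₁ n₂ n₃ : ℤ × ℤ, Good M n₁ n₂ n₃ → ‖pf ρ S n₁ n₂ n₃ a₁ a₂ a₃‖ ≤
        τ * (Real.sqrt ((mu (c1 ρ) a₁).real (sq (eta0 ρ * S) n₁)) *
          Real.sqrt ((mu (c2 ρ) a₂).real (sq (eta0 ρ * S) n₂))) +
        (if lam < thin (mu c3 a₃) (eta0 ρ * S) n₃ (η * S) δ then ε₂ else 0) := by
  obtain ⟨C, hC, hCb⟩ := lamK_le ρ hi
  obtain ⟨ε, lam, hε, hlam, hpar⟩ := heavy_param V δ τ C hV hδ hτ hC
  obtain ⟨η, hη, hηe, R₁, hR₁, hfine⟩ := fine3 ρ hi ε hε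
  refine ⟨lam, η, hlam, hη, ?_⟩
  intro ε₂ hε₂
  obtain ⟨R₂, hR₂, hev⟩ := event_ss ρ hi h0 h1 hss M V ε₂ hV hε₂
  refine ⟨max R₁ R₂, le_max_of_le_left hR₁, ?_⟩
  intro S hS a₁ a₂ a₃ na₁ na₂ na₃ b₁ b₂ b₃ v₁ v₂ v₃ n₁ n₂ n₃ hG
  have hSpos : 0 < S := lt_of_lt_of_le one_pos (hR₁.trans ((le_max_left _ _).trans hS))
  have hs : 0 < eta0 ρ * S := mul_pos (eta0_pos ρ hi) hSpos
  split_ifs with hif
  · have h := hev S ((le_max_right _ _).trans hS) a₁ a₂ a₃ na₁ na₂ na₃ b₁ b₂ b₃ v₁ v₂ v₃ n₁ n₂ n₃ hG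
    have h' : 0 ≤ τ * (Real.sqrt ((mu (c1 ρ) a₁).real (sq (eta0 ρ * S) n₁)) *
          Real.sqrt ((mu (c2 ρ) a₂).real (sq (eta0 ρ * S) n₂))) := by positivity
    linarith
  · rw [add_zero]
    have hp1 := nice_piece (c1 ρ) (eta0 ρ * S) n₁ a₁ na₁
    have hp2 := nice_piece (c2 ρ) (eta0 ρ * S) n₂ a₂ na₂
    have hp3 := nice_piece c3 (eta0 ρ * S) n₃ a₃ na₃
    have hfp : ∀ l, Nice (piece c3 (η * S) l (piece c3 (eta0 ρ * S) n₃ a₃)) :=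
      fun l => nice_piece c3 (η * S) l _ hp3
    have key := heavy_gen c3 c3_ne a₃ na₃ V δ (eta0 ρ * S) (η * S) v₃ hδ hs
      (mul_pos hη hSpos) n₃ (fun r => LamK ρ (kR S) (𝓕⁻ (piece (c1 ρ) (eta0 ρ * S) n₁ a₁))
        (𝓕⁻ (piece (c2 ρ) (eta0 ρ * S) n₂ a₂)) (𝓕⁻ r))
      (Real.sqrt ((mu (c1 ρ) a₁).real (sq (eta0 ρ * S) n₁)) *
          Real.sqrt ((mu (c2 ρ) a₂).real (sq (eta0 ρ * S) n₂))) C ε (by positivity) hC hε.le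
      (fun F => lamK_sum3 ρ hi S hSpos F _ _ _ hp1 hp2 hfp)
      (fun F => by
        refine (hCb S _ _ _ hSpos hp1 hp2 (nice_sum F _ fun l _ => hfp l)).trans ?_
        apply mul_le_mul_of_nonneg_right _ (Real.sqrt_nonneg _)
        rw [mul_assoc]
        apply mul_le_mul_of_nonneg_left _ hC
        apply mul_le_mul _ _ (Real.sqrt_nonneg _) (Real.sqrt_nonneg _)
        · exact Real.sqrt_le_sqrt (piece_l2 _ (c1_ne ρ hi) _ hs n₁ a₁ na₁)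
        · exact Real.sqrt_le_sqrt (piece_l2 _ (c2_ne ρ hi) _ hs n₂ a₂ na₂))
      (fun l => by
        refine (hfine S ((le_max_left _ _).trans hS) a₁ a₂ a₃ na₁ na₂ na₃ b₃ n₁ n₂ n₃ l
          hG.2.2.1).trans ?_
        rw [mul_assoc])
    refine le_trans key ?_
    apply mul_le_mul_of_nonneg_right _ (by positivity)
    exact hpar _ (not_lt.mp hif)

theorem heavy2 (ρ : ℂ) (hi : ρ.im ≠ 0) (h0 : ρ.re ≠ 0) (h1 : ρ.re ≠ 1) (hss : PropSS ρ)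
    (M V δ τ : ℝ)
    (hV : 0 < V) (hδ : 0 < δ) (hτ : 0 < τ) : ∃ lam η : ℝ, 0 < lam ∧ 0 < η ∧
    ∀ ε₂ : ℝ, 0 < ε₂ → ∃ R₀ : ℝ, 1 ≤ R₀ ∧ ∀ S : ℝ, R₀ ≤ S → ∀ a₁ a₂ a₃ : ℂ → ℂ,
      Nice a₁ → Nice a₂ → Nice a₃ →
      (∀ z, ‖𝓕⁻ a₁ z‖ ≤ 1) → (∀ z, ‖𝓕⁻ a₂ z‖ ≤ 1) → (∀ z, ‖𝓕⁻ a₃ z‖ ≤ 1) →
      (∫ ξ, ‖a₁ ξ‖ ^ 2) ≤ V → (∫ ξ, ‖a₂ ξ‖ ^ 2) ≤ V → (∫ ξ, ‖a₃ ξ‖ ^ 2) ≤ V →
      ∀ n₁ n₂ n₃ : ℤ × ℤ, Good M n₁ n₂ n₃ → ‖pf ρ S n₁ n₂ n₃ a₁ a₂ a₃‖ ≤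
        τ * (Real.sqrt ((mu (c1 ρ) a₁).real (sq (eta0 ρ * S) n₁)) *
          Real.sqrt ((mu c3 a₃).real (sq (eta0 ρ * S) n₃))) +
        (if lam < thin (mu (c2 ρ) a₂) (eta0 ρ * S) n₂ (η * S) δ then ε₂ else 0) := by
  obtain ⟨C, hC, hCb⟩ := lamK_le ρ hi
  obtain ⟨ε, lam, hε, hlam, hpar⟩ := heavy_param V δ τ C hV hδ hτ hC
  obtain ⟨η, hη, hηe, R₁, hR₁, hfine⟩ := fine2 ρ hi ε hε
  refine ⟨lam, η, hlam, hη, ?_⟩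
  intro ε₂ hε₂
  obtain ⟨R₂, hR₂, hev⟩ := event_ss ρ hi h0 h1 hss M V ε₂ hV hε₂
  refine ⟨max R₁ R₂, le_max_of_le_left hR₁, ?_⟩
  intro S hS a₁ a₂ a₃ na₁ na₂ na₃ b₁ b₂ b₃ v₁ v₂ v₃ n₁ n₂ n₃ hG
  have hSpos : 0 < S := lt_of_lt_of_le one_pos (hR₁.trans ((le_max_left _ _).trans hS))
  have hs : 0 < eta0 ρ * S := mul_pos (eta0_pos ρ hi) hSpos
  split_ifs with hif
  · have h := hev S ((le_max_right _ _).trans hS) a₁ a₂ a₃ na₁ na₂ na₃ b₁ b₂ b₃ v₁ v₂ v₃ n₁ n₂ n₃ hG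
    have h' : 0 ≤ τ * (Real.sqrt ((mu (c1 ρ) a₁).real (sq (eta0 ρ * S) n₁)) *
          Real.sqrt ((mu c3 a₃).real (sq (eta0 ρ * S) n₃))) := by positivity
    linarith
  · rw [add_zero]
    have hp1 := nice_piece (c1 ρ) (eta0 ρ * S) n₁ a₁ na₁
    have hp2 := nice_piece (c2 ρ) (eta0 ρ * S) n₂ a₂ na₂
    have hp3 := nice_piece c3 (eta0 ρ * S) n₃ a₃ na₃
    have hfp : ∀ l, Nice (piece (c2 ρ) (η * S) l (piece (c2 ρ) (eta0 ρ * S) n₂ a₂)) :=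
      fun l => nice_piece (c2 ρ) (η * S) l _ hp2
    have key := heavy_gen (c2 ρ) (c2_ne ρ hi) a₂ na₂ V δ (eta0 ρ * S) (η * S) v₂ hδ hs
      (mul_pos hη hSpos) n₂ (fun r => LamK ρ (kR S) (𝓕⁻ (piece (c1 ρ) (eta0 ρ * S) n₁ a₁))
        (𝓕⁻ r) (𝓕⁻ (piece c3 (eta0 ρ * S) n₃ a₃)))
      (Real.sqrt ((mu (c1 ρ) a₁).real (sq (eta0 ρ * S) n₁)) *
          Real.sqrt ((mu c3 a₃).real (sq (eta0 ρ * S) n₃))) C ε (by positivity) hC hε.le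
      (fun F => lamK_sum2 ρ hi S hSpos F _ _ _ hp1 hfp hp3)
      (fun F => by
        refine (hCb S _ _ _ hSpos hp1 (nice_sum F _ fun l _ => hfp l) hp3).trans ?_
        have e1 := Real.sqrt_le_sqrt (piece_l2 _ (c1_ne ρ hi) _ hs n₁ a₁ na₁)
        have e3 := Real.sqrt_le_sqrt (piece_l2 _ c3_ne _ hs n₃ a₃ na₃)
        have e13 := mul_le_mul e1 e3 (Real.sqrt_nonneg _) (Real.sqrt_nonneg _)
        have e13' := mul_le_mul_of_nonneg_left e13 hC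
        have e13'' := mul_le_mul_of_nonneg_right e13' (Real.sqrt_nonneg
          (∫ ξ, ‖∑ l ∈ F, piece (c2 ρ) (η * S) l (piece (c2 ρ) (eta0 ρ * S) n₂ a₂) ξ‖ ^ 2))
        refine le_trans (le_of_eq ?_) e13''
        ring)
      (fun l => by
        refine (hfine S ((le_max_left _ _).trans hS) a₁ a₂ a₃ na₁ na₂ na₃ b₂ n₁ n₂ n₃ l
          hG.2.2.1).trans ?_
        rw [mul_assoc])
    refine le_trans key ?_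
    apply mul_le_mul_of_nonneg_right _ (by positivity)
    exact hpar _ (not_lt.mp hif)

theorem c1_swap (ρ : ℂ) : c1 (1 - ρ) = c2 ρ := by
  simp [c1, c2]

theorem c2_swap (ρ : ℂ) : c2 (1 - ρ) = c1 ρ := by
  simp [c1, c2]

theorem eta0_swap (ρ : ℂ) : eta0 (1 - ρ) = eta0 ρ := by
  unfold eta0
  have h1 : ‖(1 - ρ) - 1‖ = ‖ρ‖ := by
    rw [show (1 - ρ) - 1 = -ρ by ring, norm_neg]
  have h2 : ‖1 - ρ‖ = ‖ρ - 1‖ := norm_sub_rev _ _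
  rw [h1, h2]
  ring

theorem pf_swap (ρ : ℂ) (S : ℝ) (n₁ n₂ n₃ : ℤ × ℤ) (a₁ a₂ a₃ : ℂ → ℂ) :
    pf ρ S n₁ n₂ n₃ a₁ a₂ a₃ = pf (1 - ρ) S n₂ n₁ n₃ a₂ a₁ a₃ := by
  unfold pf
  rw [lamK_swap, c1_swap, c2_swap, eta0_swap]

theorem gi_neg (n : ℤ × ℤ) : gi (-n) = -gi n := by
  simp [gi]
  ring

theorem gi_sub (n m : ℤ × ℤ) : gi (n - m) = gi n - gi m := by
  simp [gi]
  ring

theorem gi_add (n m : ℤ × ℤ) : gi (n + m) = gi n + gi m := by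
  simp [gi]
  ring

theorem norm_gi_comm (n m : ℤ × ℤ) : ‖gi (n - m)‖ = ‖gi (m - n)‖ := by
  rw [← neg_sub m n, gi_neg, norm_neg]

theorem Good.swap {M : ℝ} {n₁ n₂ n₃ : ℤ × ℤ} (h : Good M n₁ n₂ n₃) : Good M n₂ n₁ n₃ := by
  refine ⟨?_, h.2.2, h.2.1⟩
  rw [norm_gi_comm n₂ n₁]
  exact h.1

theorem heavy1 (ρ : ℂ) (hi : ρ.im ≠ 0) (h0 : ρ.re ≠ 0) (h1 : ρ.re ≠ 1)
    (hss : PropSS (1 - ρ)) (M V δ τ : ℝ)
    (hV : 0 < V) (hδ : 0 < δ) (hτ : 0 < τ) : ∃ lam η : ℝ, 0 < lam ∧ 0 < η ∧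
    ∀ ε₂ : ℝ, 0 < ε₂ → ∃ R₀ : ℝ, 1 ≤ R₀ ∧ ∀ S : ℝ, R₀ ≤ S → ∀ a₁ a₂ a₃ : ℂ → ℂ,
      Nice a₁ → Nice a₂ → Nice a₃ →
      (∀ z, ‖𝓕⁻ a₁ z‖ ≤ 1) → (∀ z, ‖𝓕⁻ a₂ z‖ ≤ 1) → (∀ z, ‖𝓕⁻ a₃ z‖ ≤ 1) →
      (∫ ξ, ‖a₁ ξ‖ ^ 2) ≤ V → (∫ ξ, ‖a₂ ξ‖ ^ 2) ≤ V → (∫ ξ, ‖a₃ ξ‖ ^ 2) ≤ V →
      ∀ n₁ n₂ n₃ : ℤ × ℤ, Good M n₁ n₂ n₃ → ‖pf ρ S n₁ n₂ n₃ a₁ a₂ a₃‖ ≤
        τ * (Real.sqrt ((mu (c2 ρ) a₂).real (sq (eta0 ρ * S) n₂)) *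
          Real.sqrt ((mu c3 a₃).real (sq (eta0 ρ * S) n₃))) +
        (if lam < thin (mu (c1 ρ) a₁) (eta0 ρ * S) n₁ (η * S) δ then ε₂ else 0) := by
  have hi' : (1 - ρ).im ≠ 0 := by simpa using hi
  have h0' : (1 - ρ).re ≠ 0 := by
    intro h
    apply h1
    simp at h
    linarith
  have h1' : (1 - ρ).re ≠ 1 := by simpa using h0
  obtain ⟨lam, η, hlam, hη, H⟩ := heavy2 (1 - ρ) hi' h0' h1' hss M V δ τ hV hδ hτ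
  refine ⟨lam, η, hlam, hη, ?_⟩
  intro ε₂ hε₂
  obtain ⟨R₀, hR₀, H'⟩ := H ε₂ hε₂
  refine ⟨R₀, hR₀, ?_⟩
  intro S hS a₁ a₂ a₃ na₁ na₂ na₃ b₁ b₂ b₃ v₁ v₂ v₃ n₁ n₂ n₃ hG
  have := H' S hS a₂ a₁ a₃ na₂ na₁ na₃ b₂ b₁ b₃ v₂ v₁ v₃ n₂ n₁ n₃ hG.swap
  rw [pf_swap]
  rw [c1_swap, c2_swap, eta0_swap] at this
  exact this

end Pool.Agent.H24.Tri
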