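import Pool.Agent.H19.TriS.Heavy

set_option autoImplicit false

open MeasureTheory Set Complex Metric Filter Topology
open scoped Real ENNReal NNReal FourierTransform ComplexConjugate

namespace Pool.Agent.H24.Tri

/-- reindexed version of `d_heavy` -/
theorem d_heavy' (p q : ℤ × ℤ) (he : 8 ≤ ‖gi (q - p)‖) : ∃ C : ℝ, 0 ≤ C ∧
    ∀ (μ ν : Measure ℂ) [IsFiniteMeasure μ] [IsFiniteMeasure ν]
      (V : ℝ), μ.real univ ≤ V → ν.real univ ≤ V →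
    ∀ δ s : ℝ, 0 < δ → 0 < s → ∀ (J : ℕ) (F : ℕ → Finset (ℤ × ℤ)),
    ∑ j ∈ Finset.range J, ∑ n ∈ F j,
      (if δ < ν.real (sq (s * 2 ^ j) (n + q)) then μ.real (sq (s * 2 ^ j) (n + p)) else 0) ≤
      C * V ^ 2 / δ := by
  classical
  obtain ⟨C, hC, h⟩ := d_heavy (q - p) he
  refine ⟨C, hC, ?_⟩
  intro μ ν _ _ V hμ hν δ s hδ hs J F
  have := h μ ν V hμ hν δ s hδ hs J (fun j => (F j).map (addRightEmbedding p))
  refine le_trans (le_of_eq ?_) this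
  apply Finset.sum_congr rfl
  intro j _
  rw [Finset.sum_map]
  apply Finset.sum_congr rfl
  intro n _
  simp only [addRightEmbedding_apply]
  rw [show n + p + (q - p) = n + q by abel]

/-- reindexed version of `d_event` -/
theorem d_event' (η : ℝ) (hη : 0 < η) (q : ℤ × ℤ) : ∃ C : ℝ, 0 ≤ C ∧
    ∀ (ν : Measure ℂ) [IsFiniteMeasure ν] (V : ℝ), ν.real univ ≤ V →
    ∀ δ lam s : ℝ, 0 < δ → 0 < lam → 0 < s → ∀ (J : ℕ) (F : ℕ → Finset (ℤ × ℤ)),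
    ∑ j ∈ Finset.range J, ∑ n ∈ F j,
      (if δ < ν.real (sq (s * 2 ^ j) (n + q)) ∧
          lam < thin ν (s * 2 ^ j) (n + q) (η * (s * 2 ^ j)) δ
        then (1 : ℝ) else 0) ≤ C * V / lam := by
  classical
  obtain ⟨C, hC, h⟩ := d_event η hη
  refine ⟨C, hC, ?_⟩
  intro ν _ V hν δ lam s hδ hlam hs J F
  have := h ν V hν δ lam s hδ hlam hs J (fun j => (F j).map (addRightEmbedding q))
  refine le_trans (le_of_eq ?_) this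
  apply Finset.sum_congr rfl
  intro j _
  rw [Finset.sum_map]
  rfl

theorem sqrt_mul_le (x y : ℝ) (hx : 0 ≤ x) (hy : 0 ≤ y) :
    Real.sqrt x * Real.sqrt y ≤ (x + y) / 2 := by
  have h1 := Real.sq_sqrt hx
  have h2 := Real.sq_sqrt hy
  nlinarith [sq_nonneg (Real.sqrt x - Real.sqrt y)]

/-- sums attached to one heavy index -/
theorem heavy_sum (p₁ p₂ q : ℤ × ℤ) (h1 : 8 ≤ ‖gi (q - p₁)‖) (h2 : 8 ≤ ‖gi (q - p₂)‖) :
    ∃ C : ℝ, 0 ≤ C ∧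
    ∀ (μ₁ μ₂ ν : Measure ℂ) [IsFiniteMeasure μ₁] [IsFiniteMeasure μ₂] [IsFiniteMeasure ν]
      (V : ℝ), μ₁.real univ ≤ V → μ₂.real univ ≤ V → ν.real univ ≤ V →
    ∀ δ s : ℝ, 0 < δ → 0 < s → ∀ (J : ℕ) (F : ℕ → Finset (ℤ × ℤ)),
    ∑ j ∈ Finset.range J, ∑ n ∈ F j,
      (if δ < ν.real (sq (s * 2 ^ j) (n + q)) then
        Real.sqrt (μ₁.real (sq (s * 2 ^ j) (n + p₁))) *
          Real.sqrt (μ₂.real (sq (s * 2 ^ j) (n + p₂))) else 0) ≤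
      C * V ^ 2 / δ := by
  obtain ⟨C₁, hC₁, H₁⟩ := d_heavy' p₁ q h1
  obtain ⟨C₂, hC₂, H₂⟩ := d_heavy' p₂ q h2
  refine ⟨(C₁ + C₂) / 2, by positivity, ?_⟩
  intro μ₁ μ₂ ν _ _ _ V hμ₁ hμ₂ hν δ s hδ hs J F
  have a1 := H₁ μ₁ ν V hμ₁ hν δ s hδ hs J F
  have a2 := H₂ μ₂ ν V hμ₂ hν δ s hδ hs J F
  calc ∑ j ∈ Finset.range J, ∑ n ∈ F j,
      (if δ < ν.real (sq (s * 2 ^ j) (n + q)) then
        Real.sqrt (μ₁.real (sq (s * 2 ^ j) (n + p₁))) *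
          Real.sqrt (μ₂.real (sq (s * 2 ^ j) (n + p₂))) else 0)
      ≤ ∑ j ∈ Finset.range J, ∑ n ∈ F j,
        ((if δ < ν.real (sq (s * 2 ^ j) (n + q)) then μ₁.real (sq (s * 2 ^ j) (n + p₁)) else 0) / 2
        + (if δ < ν.real (sq (s * 2 ^ j) (n + q)) then
            μ₂.real (sq (s * 2 ^ j) (n + p₂)) else 0) / 2) := by
        apply Finset.sum_le_sum
        intro j _
        apply Finset.sum_le_sum
        intro n _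
        split_ifs with h
        · have := sqrt_mul_le (μ₁.real (sq (s * 2 ^ j) (n + p₁)))
            (μ₂.real (sq (s * 2 ^ j) (n + p₂))) measureReal_nonneg measureReal_nonneg
          linarith
        · simp
    _ = (∑ j ∈ Finset.range J, ∑ n ∈ F j,
          (if δ < ν.real (sq (s * 2 ^ j) (n + q)) then
            μ₁.real (sq (s * 2 ^ j) (n + p₁)) else 0)) / 2 +
        (∑ j ∈ Finset.range J, ∑ n ∈ F j,
          (if δ < ν.real (sq (s * 2 ^ j) (n + q)) then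
            μ₂.real (sq (s * 2 ^ j) (n + p₂)) else 0)) / 2 := by
        simp only [Finset.sum_add_distrib, Finset.sum_div]
    _ ≤ C₁ * V ^ 2 / δ / 2 + C₂ * V ^ 2 / δ / 2 := by linarith
    _ = _ := by ring

theorem norm_gi_le (n : ℤ × ℤ) : (|n.1| : ℝ) ≤ ‖gi n‖ ∧ (|n.2| : ℝ) ≤ ‖gi n‖ := by
  constructor
  · have := Complex.abs_re_le_norm (gi n)
    simpa [gi] using this
  · have := Complex.abs_im_le_norm (gi n)
    simpa [gi] using this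

/-- numerical summation of the estimate for one offset -/
theorem offset_num (J : ℕ) (F : ℕ → Finset (ℤ × ℤ)) (P x₁ x₂ x₃ : ℕ → ℤ × ℤ → ℝ)
    (h₁ h₂ h₃ : ℕ → ℤ × ℤ → Prop) [∀ j n, Decidable (h₁ j n)] [∀ j n, Decidable (h₂ j n)]
    [∀ j n, Decidable (h₃ j n)]
    (δ τ ε₂ C A B₁ B₂ B₃ E₁ E₂ E₃ : ℝ) (hτ : 0 ≤ τ) (hε₂ : 0 ≤ ε₂) (hC : 0 ≤ C)
    (hl : ∀ j n, x₁ j n ≤ δ ∧ x₂ j n ≤ δ ∧ x₃ j n ≤ δ →
      P j n ≤ C * (Real.sqrt (x₁ j n) * Real.sqrt (x₂ j n) * Real.sqrt (x₃ j n)))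
    (hh₁ : ∀ j n, P j n ≤ τ * (Real.sqrt (x₂ j n) * Real.sqrt (x₃ j n)) +
      (if h₁ j n then ε₂ else 0))
    (hh₂ : ∀ j n, P j n ≤ τ * (Real.sqrt (x₁ j n) * Real.sqrt (x₃ j n)) +
      (if h₂ j n then ε₂ else 0))
    (hh₃ : ∀ j n, P j n ≤ τ * (Real.sqrt (x₁ j n) * Real.sqrt (x₂ j n)) +
      (if h₃ j n then ε₂ else 0))
    (sA : ∑ j ∈ Finset.range J, ∑ n ∈ F j, (if x₁ j n ≤ δ ∧ x₂ j n ≤ δ ∧ x₃ j n ≤ δ then
      Real.sqrt (x₁ j n) * Real.sqrt (x₂ j n) * Real.sqrt (x₃ j n) else 0) ≤ A)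
    (sB₁ : ∑ j ∈ Finset.range J, ∑ n ∈ F j, (if δ < x₁ j n then
      Real.sqrt (x₂ j n) * Real.sqrt (x₃ j n) else 0) ≤ B₁)
    (sB₂ : ∑ j ∈ Finset.range J, ∑ n ∈ F j, (if δ < x₂ j n then
      Real.sqrt (x₁ j n) * Real.sqrt (x₃ j n) else 0) ≤ B₂)
    (sB₃ : ∑ j ∈ Finset.range J, ∑ n ∈ F j, (if δ < x₃ j n then
      Real.sqrt (x₁ j n) * Real.sqrt (x₂ j n) else 0) ≤ B₃)
    (sE₁ : ∑ j ∈ Finset.range J, ∑ n ∈ F j, (if δ < x₁ j n ∧ h₁ j n then (1 : ℝ) else 0) ≤ E₁)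
    (sE₂ : ∑ j ∈ Finset.range J, ∑ n ∈ F j, (if δ < x₂ j n ∧ h₂ j n then (1 : ℝ) else 0) ≤ E₂)
    (sE₃ : ∑ j ∈ Finset.range J, ∑ n ∈ F j, (if δ < x₃ j n ∧ h₃ j n then (1 : ℝ) else 0) ≤ E₃) :
    ∑ j ∈ Finset.range J, ∑ n ∈ F j, P j n ≤
      C * A + τ * (B₁ + B₂ + B₃) + ε₂ * (E₁ + E₂ + E₃) := by
  have key : ∀ j n, P j n ≤
      C * (if x₁ j n ≤ δ ∧ x₂ j n ≤ δ ∧ x₃ j n ≤ δ then
        Real.sqrt (x₁ j n) * Real.sqrt (x₂ j n) * Real.sqrt (x₃ j n) else 0) +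
      (τ * (if δ < x₁ j n then Real.sqrt (x₂ j n) * Real.sqrt (x₃ j n) else 0) +
        τ * (if δ < x₂ j n then Real.sqrt (x₁ j n) * Real.sqrt (x₃ j n) else 0) +
        τ * (if δ < x₃ j n then Real.sqrt (x₁ j n) * Real.sqrt (x₂ j n) else 0)) +
      (ε₂ * (if δ < x₁ j n ∧ h₁ j n then (1 : ℝ) else 0) +
        ε₂ * (if δ < x₂ j n ∧ h₂ j n then (1 : ℝ) else 0) +
        ε₂ * (if δ < x₃ j n ∧ h₃ j n then (1 : ℝ) else 0)) := by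
    intro j n
    have n0 : 0 ≤ C * (if x₁ j n ≤ δ ∧ x₂ j n ≤ δ ∧ x₃ j n ≤ δ then
        Real.sqrt (x₁ j n) * Real.sqrt (x₂ j n) * Real.sqrt (x₃ j n) else 0) := by
      split_ifs <;> positivity
    have n1 : 0 ≤ τ * (if δ < x₁ j n then Real.sqrt (x₂ j n) * Real.sqrt (x₃ j n) else 0) := by
      split_ifs <;> positivity
    have n2 : 0 ≤ τ * (if δ < x₂ j n then Real.sqrt (x₁ j n) * Real.sqrt (x₃ j n) else 0) := by
      split_ifs <;> positivity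
    have n3 : 0 ≤ τ * (if δ < x₃ j n then Real.sqrt (x₁ j n) * Real.sqrt (x₂ j n) else 0) := by
      split_ifs <;> positivity
    have m1 : 0 ≤ ε₂ * (if δ < x₁ j n ∧ h₁ j n then (1 : ℝ) else 0) := by
      split_ifs <;> simp [hε₂]
    have m2 : 0 ≤ ε₂ * (if δ < x₂ j n ∧ h₂ j n then (1 : ℝ) else 0) := by
      split_ifs <;> simp [hε₂]
    have m3 : 0 ≤ ε₂ * (if δ < x₃ j n ∧ h₃ j n then (1 : ℝ) else 0) := by
      split_ifs <;> simp [hε₂]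
    by_cases hall : x₁ j n ≤ δ ∧ x₂ j n ≤ δ ∧ x₃ j n ≤ δ
    · have := hl j n hall
      rw [if_pos hall] at n0 ⊢
      linarith
    · by_cases c1 : δ < x₁ j n
      · have h := hh₁ j n
        have e1 : ε₂ * (if δ < x₁ j n ∧ h₁ j n then (1 : ℝ) else 0) =
            if h₁ j n then ε₂ else 0 := by
          simp only [c1, true_and]
          split_ifs <;> simp
        have e2 : τ * (if δ < x₁ j n then Real.sqrt (x₂ j n) * Real.sqrt (x₃ j n) else 0) =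
            τ * (Real.sqrt (x₂ j n) * Real.sqrt (x₃ j n)) := by rw [if_pos c1]
        rw [e1, e2]
        linarith
      · by_cases c2 : δ < x₂ j n
        · have h := hh₂ j n
          have e1 : ε₂ * (if δ < x₂ j n ∧ h₂ j n then (1 : ℝ) else 0) =
              if h₂ j n then ε₂ else 0 := by
            simp only [c2, true_and]
            split_ifs <;> simp
          have e2 : τ * (if δ < x₂ j n then Real.sqrt (x₁ j n) * Real.sqrt (x₃ j n) else 0) =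
              τ * (Real.sqrt (x₁ j n) * Real.sqrt (x₃ j n)) := by rw [if_pos c2]
          rw [e1, e2]
          linarith
        · have c3 : δ < x₃ j n := by
            by_contra hc
            exact hall ⟨not_lt.mp c1, not_lt.mp c2, not_lt.mp hc⟩
          have h := hh₃ j n
          have e1 : ε₂ * (if δ < x₃ j n ∧ h₃ j n then (1 : ℝ) else 0) =
              if h₃ j n then ε₂ else 0 := by
            simp only [c3, true_and]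
            split_ifs <;> simp
          have e2 : τ * (if δ < x₃ j n then Real.sqrt (x₁ j n) * Real.sqrt (x₂ j n) else 0) =
              τ * (Real.sqrt (x₁ j n) * Real.sqrt (x₂ j n)) := by rw [if_pos c3]
          rw [e1, e2]
          linarith
  calc ∑ j ∈ Finset.range J, ∑ n ∈ F j, P j n ≤ _ :=
        Finset.sum_le_sum fun j _ => Finset.sum_le_sum fun n _ => key j n
    _ = C * (∑ j ∈ Finset.range J, ∑ n ∈ F j, (if x₁ j n ≤ δ ∧ x₂ j n ≤ δ ∧ x₃ j n ≤ δ then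
          Real.sqrt (x₁ j n) * Real.sqrt (x₂ j n) * Real.sqrt (x₃ j n) else 0)) +
        (τ * (∑ j ∈ Finset.range J, ∑ n ∈ F j, (if δ < x₁ j n then
            Real.sqrt (x₂ j n) * Real.sqrt (x₃ j n) else 0)) +
          τ * (∑ j ∈ Finset.range J, ∑ n ∈ F j, (if δ < x₂ j n then
            Real.sqrt (x₁ j n) * Real.sqrt (x₃ j n) else 0)) +
          τ * (∑ j ∈ Finset.range J, ∑ n ∈ F j, (if δ < x₃ j n then
            Real.sqrt (x₁ j n) * Real.sqrt (x₂ j n) else 0))) +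
        (ε₂ * (∑ j ∈ Finset.range J, ∑ n ∈ F j, (if δ < x₁ j n ∧ h₁ j n then (1 : ℝ) else 0)) +
          ε₂ * (∑ j ∈ Finset.range J, ∑ n ∈ F j, (if δ < x₂ j n ∧ h₂ j n then (1 : ℝ) else 0)) +
          ε₂ * (∑ j ∈ Finset.range J, ∑ n ∈ F j,
            (if δ < x₃ j n ∧ h₃ j n then (1 : ℝ) else 0))) := by
        simp only [Finset.sum_add_distrib, Finset.mul_sum]
    _ ≤ C * A + (τ * B₁ + τ * B₂ + τ * B₃) + (ε₂ * E₁ + ε₂ * E₂ + ε₂ * E₃) := by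
        gcongr
    _ = _ := by ring

/-- a positive parameter `x` with `K * x ≤ b` -/
theorem small_param (K b : ℝ) (hK : 0 ≤ K) (hb : 0 < b) : ∃ x : ℝ, 0 < x ∧ K * x ≤ b := by
  refine ⟨b / (K + 1), by positivity, ?_⟩
  rw [mul_div_assoc', div_le_iff₀ (by positivity)]
  nlinarith

theorem small_param_pow (K b : ℝ) (hK : 0 ≤ K) (hb : 0 < b) :
    ∃ x : ℝ, 0 < x ∧ K * x ^ (1 / 4 : ℝ) ≤ b := by
  obtain ⟨y, hy, hyb⟩ := small_param K b hK hb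
  refine ⟨y ^ (4 : ℝ), by positivity, ?_⟩
  rw [← Real.rpow_mul hy.le]
  norm_num
  exact hyb

/-- the estimate for one offset -/
theorem offset_est (ρ : ℂ) (hi : ρ.im ≠ 0) (h0 : ρ.re ≠ 0) (h1 : ρ.re ≠ 1)
    (hss : PropSS ρ) (hss' : PropSS (1 - ρ)) (M : ℝ)
    (d₂ d₃ : ℤ × ℤ) (hG : Good M 0 d₂ d₃) (V ε : ℝ) (hV : 0 < V) (hε : 0 < ε) :
    ∃ R₀ : ℝ, 1 ≤ R₀ ∧ ∀ R : ℝ, R₀ ≤ R → ∀ a₁ a₂ a₃ : ℂ → ℂ,
      Nice a₁ → Nice a₂ → Nice a₃ →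
      (∀ z, ‖𝓕⁻ a₁ z‖ ≤ 1) → (∀ z, ‖𝓕⁻ a₂ z‖ ≤ 1) → (∀ z, ‖𝓕⁻ a₃ z‖ ≤ 1) →
      (∫ ξ, ‖a₁ ξ‖ ^ 2) ≤ V → (∫ ξ, ‖a₂ ξ‖ ^ 2) ≤ V → (∫ ξ, ‖a₃ ξ‖ ^ 2) ≤ V →
      ∀ (J : ℕ) (F : ℕ → Finset (ℤ × ℤ)),
      ∑ j ∈ Finset.range J, ∑ n ∈ F j,
        ‖pf ρ (2 ^ j * R) n (n + d₂) (n + d₃) a₁ a₂ a₃‖ ≤ ε := by
  classical
  have g12 : 90 ≤ ‖gi d₂‖ := by
    have := hG.1.1
    rwa [zero_sub, gi_neg, norm_neg] at this
  have g13 : 90 ≤ ‖gi d₃‖ := by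
    have := hG.2.1.1
    rwa [zero_sub, gi_neg, norm_neg] at this
  have g23 : 90 ≤ ‖gi (d₂ - d₃)‖ := hG.2.2.1
  have hgood : ∀ n, Good M n (n + d₂) (n + d₃) := by
    intro n
    unfold Good
    rw [show n - (n + d₂) = 0 - d₂ by abel, show n - (n + d₃) = 0 - d₃ by abel,
      show n + d₂ - (n + d₃) = d₂ - d₃ by abel]
    exact hG
  obtain ⟨C, hC, hCb⟩ := lamK_le ρ hi
  obtain ⟨Cl, hCl, Hl⟩ := d_light d₂ d₃ (by linarith) (by linarith) (by linarith)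
  obtain ⟨K₁, hK₁, HK₁⟩ := heavy_sum d₂ d₃ 0 (by rw [zero_sub, gi_neg, norm_neg]; linarith)
    (by rw [zero_sub, gi_neg, norm_neg]; linarith)
  obtain ⟨K₂, hK₂, HK₂⟩ := heavy_sum 0 d₃ d₂ (by rw [sub_zero]; linarith) (by linarith)
  obtain ⟨K₃, hK₃, HK₃⟩ := heavy_sum 0 d₂ d₃ (by rw [sub_zero]; linarith)
    (by rw [norm_gi_comm]; linarith)
  -- choose δ
  obtain ⟨δ, hδ, hδb⟩ := small_param_pow (C * Cl * V ^ (5 / 4 : ℝ)) (ε / 3) (by positivity)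
    (by positivity)
  obtain ⟨τ, hτ, hτb⟩ := small_param ((K₁ + K₂ + K₃) * V ^ 2 / δ) (ε / 3) (by positivity)
    (by positivity)
  obtain ⟨l₁, η₁, hl₁, hη₁, P₁⟩ := heavy1 ρ hi h0 h1 hss' M V δ τ hV hδ hτ
  obtain ⟨l₂, η₂, hl₂, hη₂, P₂⟩ := heavy2 ρ hi h0 h1 hss M V δ τ hV hδ hτ
  obtain ⟨l₃, η₃, hl₃, hη₃, P₃⟩ := heavy3 ρ hi h0 h1 hss M V δ τ hV hδ hτ
  have he0 := eta0_pos ρ hi
  obtain ⟨E₁, hE₁, HE₁⟩ := d_event' (η₁ / eta0 ρ) (by positivity) 0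
  obtain ⟨E₂, hE₂, HE₂⟩ := d_event' (η₂ / eta0 ρ) (by positivity) d₂
  obtain ⟨E₃, hE₃, HE₃⟩ := d_event' (η₃ / eta0 ρ) (by positivity) d₃
  obtain ⟨ε₂, hε₂, hε₂b⟩ := small_param (E₁ * V / l₁ + E₂ * V / l₂ + E₃ * V / l₃) (ε / 3)
    (by positivity) (by positivity)
  obtain ⟨R₁, hR₁, Q₁⟩ := P₁ ε₂ hε₂
  obtain ⟨R₂, hR₂, Q₂⟩ := P₂ ε₂ hε₂
  obtain ⟨R₃, hR₃, Q₃⟩ := P₃ ε₂ hε₂
  refine ⟨max R₁ (max R₂ R₃), le_max_of_le_left hR₁, ?_⟩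
  intro R hR a₁ a₂ a₃ na₁ na₂ na₃ b₁ b₂ b₃ v₁ v₂ v₃ J F
  have hR1 : R₁ ≤ R := (le_max_left _ _).trans hR
  have hR2 : R₂ ≤ R := (le_max_left _ _).trans ((le_max_right _ _).trans hR)
  have hR3 : R₃ ≤ R := (le_max_right _ _).trans ((le_max_right _ _).trans hR)
  have hRpos : 0 < R := lt_of_lt_of_le one_pos (hR₁.trans hR1)
  have hge : ∀ j : ℕ, R ≤ 2 ^ j * R := by
    intro j
    have : (1 : ℝ) ≤ 2 ^ j := one_le_pow₀ (by norm_num)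
    nlinarith
  have hSpos : ∀ j : ℕ, 0 < 2 ^ j * R := fun j => by positivity
  have hsc : ∀ j : ℕ, eta0 ρ * (2 ^ j * R) = eta0 ρ * R * 2 ^ j := fun j => by ring
  have hsc' : ∀ (η : ℝ) (j : ℕ), η * (2 ^ j * R) = η / eta0 ρ * (eta0 ρ * R * 2 ^ j) := by
    intro η j
    field_simp
  have f1 := mu_finite (c1 ρ) a₁ na₁
  have f2 := mu_finite (c2 ρ) a₂ na₂
  have f3 := mu_finite c3 a₃ na₃
  have w1 : (mu (c1 ρ) a₁).real univ ≤ V := by rw [mu_univ _ _ na₁]; exact v₁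
  have w2 : (mu (c2 ρ) a₂).real univ ≤ V := by rw [mu_univ _ _ na₂]; exact v₂
  have w3 : (mu c3 a₃).real univ ≤ V := by rw [mu_univ _ _ na₃]; exact v₃
  have hsR : 0 < eta0 ρ * R := by positivity
  have main := offset_num J F (fun j n => ‖pf ρ (2 ^ j * R) n (n + d₂) (n + d₃) a₁ a₂ a₃‖)
    (fun j n => (mu (c1 ρ) a₁).real (sq (eta0 ρ * R * 2 ^ j) n))
    (fun j n => (mu (c2 ρ) a₂).real (sq (eta0 ρ * R * 2 ^ j) (n + d₂)))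
    (fun j n => (mu c3 a₃).real (sq (eta0 ρ * R * 2 ^ j) (n + d₃)))
    (fun j n => l₁ < thin (mu (c1 ρ) a₁) (eta0 ρ * R * 2 ^ j) n
      (η₁ / eta0 ρ * (eta0 ρ * R * 2 ^ j)) δ)
    (fun j n => l₂ < thin (mu (c2 ρ) a₂) (eta0 ρ * R * 2 ^ j) (n + d₂)
      (η₂ / eta0 ρ * (eta0 ρ * R * 2 ^ j)) δ)
    (fun j n => l₃ < thin (mu c3 a₃) (eta0 ρ * R * 2 ^ j) (n + d₃)
      (η₃ / eta0 ρ * (eta0 ρ * R * 2 ^ j)) δ)
    δ τ ε₂ C (Cl * δ ^ (1 / 4 : ℝ) * V ^ (5 / 4 : ℝ)) (K₁ * V ^ 2 / δ) (K₂ * V ^ 2 / δ)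
    (K₃ * V ^ 2 / δ) (E₁ * V / l₁) (E₂ * V / l₂) (E₃ * V / l₃) hτ.le hε₂.le hC
    (fun j n _ => by
      have hp1 := nice_piece (c1 ρ) (eta0 ρ * (2 ^ j * R)) n a₁ na₁
      have hp2 := nice_piece (c2 ρ) (eta0 ρ * (2 ^ j * R)) (n + d₂) a₂ na₂
      have hp3 := nice_piece c3 (eta0 ρ * (2 ^ j * R)) (n + d₃) a₃ na₃
      have hs : 0 < eta0 ρ * (2 ^ j * R) := mul_pos he0 (hSpos j)
      have e1 := Real.sqrt_le_sqrt (piece_l2 _ (c1_ne ρ hi) _ hs n a₁ na₁)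
      have e2 := Real.sqrt_le_sqrt (piece_l2 _ (c2_ne ρ hi) _ hs (n + d₂) a₂ na₂)
      have e3 := Real.sqrt_le_sqrt (piece_l2 _ c3_ne _ hs (n + d₃) a₃ na₃)
      have e12 := mul_le_mul e1 e2 (Real.sqrt_nonneg _) (Real.sqrt_nonneg _)
      have e123 := mul_le_mul e12 e3 (Real.sqrt_nonneg _) (by positivity)
      have e := mul_le_mul_of_nonneg_left e123 hC
      have h := hCb (2 ^ j * R) _ _ _ (hSpos j) hp1 hp2 hp3
      rw [hsc j] at e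
      refine le_trans ?_ e
      refine le_trans h (le_of_eq ?_)
      rw [hsc j]
      ring)
    (fun j n => by
      have h := Q₁ (2 ^ j * R) (hR1.trans (hge j)) a₁ a₂ a₃ na₁ na₂ na₃ b₁ b₂ b₃ v₁ v₂ v₃ n
        (n + d₂) (n + d₃) (hgood n)
      rw [hsc' η₁ j, hsc j] at h
      exact h)
    (fun j n => by
      have h := Q₂ (2 ^ j * R) (hR2.trans (hge j)) a₁ a₂ a₃ na₁ na₂ na₃ b₁ b₂ b₃ v₁ v₂ v₃ n
        (n + d₂) (n + d₃) (hgood n)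
      rw [hsc' η₂ j, hsc j] at h
      exact h)
    (fun j n => by
      have h := Q₃ (2 ^ j * R) (hR3.trans (hge j)) a₁ a₂ a₃ na₁ na₂ na₃ b₁ b₂ b₃ v₁ v₂ v₃ n
        (n + d₂) (n + d₃) (hgood n)
      rw [hsc' η₃ j, hsc j] at h
      exact h)
    (Hl _ _ _ V w1 w2 w3 δ (eta0 ρ * R) hδ hsR J F)
    (by
      have := HK₁ (mu (c2 ρ) a₂) (mu c3 a₃) (mu (c1 ρ) a₁) V w2 w3 w1 δ (eta0 ρ * R) hδ hsR J F
      simpa only [add_zero] using this)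
    (by
      have := HK₂ (mu (c1 ρ) a₁) (mu c3 a₃) (mu (c2 ρ) a₂) V w1 w3 w2 δ (eta0 ρ * R) hδ hsR J F
      simpa only [add_zero] using this)
    (by
      have := HK₃ (mu (c1 ρ) a₁) (mu (c2 ρ) a₂) (mu c3 a₃) V w1 w2 w3 δ (eta0 ρ * R) hδ hsR J F
      simpa only [add_zero] using this)
    (by
      have := HE₁ (mu (c1 ρ) a₁) V w1 δ l₁ (eta0 ρ * R) hδ hl₁ hsR J F
      simpa only [add_zero] using this)
    (HE₂ (mu (c2 ρ) a₂) V w2 δ l₂ (eta0 ρ * R) hδ hl₂ hsR J F)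
    (HE₃ (mu c3 a₃) V w3 δ l₃ (eta0 ρ * R) hδ hl₃ hsR J F)
  refine main.trans ?_
  have t1 : C * (Cl * δ ^ (1 / 4 : ℝ) * V ^ (5 / 4 : ℝ)) ≤ ε / 3 := by
    refine le_trans (le_of_eq ?_) hδb
    ring
  have t2 : τ * (K₁ * V ^ 2 / δ + K₂ * V ^ 2 / δ + K₃ * V ^ 2 / δ) ≤ ε / 3 := by
    refine le_trans (le_of_eq ?_) hτb
    ring
  have t3 : ε₂ * (E₁ * V / l₁ + E₂ * V / l₂ + E₃ * V / l₃) ≤ ε / 3 := by
    refine le_trans (le_of_eq ?_) hε₂b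
    ring
  linarith

end Pool.Agent.H24.Tri
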