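import Pool.Agent.H19.TriS.Offset

set_option autoImplicit false

open MeasureTheory Set Complex Metric Filter Topology
open scoped Real ENNReal NNReal FourierTransform ComplexConjugate

namespace Pool.Agent.H24.Tri

/-- decomposition of one dyadic scale into offsets -/
theorem scale_le (ρ : ℂ) (hi : ρ.im ≠ 0) (M : ℝ) (D : Finset ((ℤ × ℤ) × (ℤ × ℤ)))
    (hD : ∀ d : (ℤ × ℤ) × (ℤ × ℤ), d ∈ D ↔ Good M 0 d.1 d.2)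
    (hM : ∀ (S : ℝ) (n₁ n₂ n₃ : ℤ × ℤ)
    (a₁ a₂ a₃ : ℂ → ℂ), 0 < S → Nice a₁ → Nice a₂ → Nice a₃ → ¬ Good M n₁ n₂ n₃ →
    pf ρ S n₁ n₂ n₃ a₁ a₂ a₃ = 0) (S : ℝ) (hS : 0 < S) (a₁ a₂ a₃ : ℂ → ℂ)
    (h₁ : Nice a₁) (h₂ : Nice a₂) (h₃ : Nice a₃) : ∃ F : Finset (ℤ × ℤ),
    ‖LamK ρ (kR S) (𝓕⁻ a₁) (𝓕⁻ a₂) (𝓕⁻ a₃)‖ ≤
      ∑ d ∈ D, ∑ n ∈ F, ‖pf ρ S n (n + d.1) (n + d.2) a₁ a₂ a₃‖ := by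
  classical
  have hs : 0 < eta0 ρ * S := mul_pos (eta0_pos ρ hi) hS
  obtain ⟨F₁, hF₁⟩ := piece_sum (c1 ρ) (c1_ne ρ hi) _ hs a₁ h₁
  obtain ⟨F₂, hF₂⟩ := piece_sum (c2 ρ) (c2_ne ρ hi) _ hs a₂ h₂
  obtain ⟨F₃, hF₃⟩ := piece_sum c3 c3_ne _ hs a₃ h₃
  refine ⟨F₁, ?_⟩
  have e1 := hF₁ F₁ (le_refl _)
  have e2 := hF₂ F₂ (le_refl _)
  have e3 := hF₃ F₃ (le_refl _)
  have key := lamK_sum ρ hi S hS F₁ F₂ F₃ (fun n => piece (c1 ρ) (eta0 ρ * S) n a₁)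
    (fun n => piece (c2 ρ) (eta0 ρ * S) n a₂) (fun n => piece c3 (eta0 ρ * S) n a₃)
    (fun n => nice_piece _ _ n _ h₁) (fun n => nice_piece _ _ n _ h₂)
    (fun n => nice_piece _ _ n _ h₃)
  rw [e1, e2, e3] at key
  rw [key]
  have step : ∀ n₁ ∈ F₁, ‖∑ n₂ ∈ F₂, ∑ n₃ ∈ F₃,
      LamK ρ (kR S) (𝓕⁻ (piece (c1 ρ) (eta0 ρ * S) n₁ a₁))
        (𝓕⁻ (piece (c2 ρ) (eta0 ρ * S) n₂ a₂)) (𝓕⁻ (piece c3 (eta0 ρ * S) n₃ a₃))‖ ≤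
      ∑ d ∈ D, ‖pf ρ S n₁ (n₁ + d.1) (n₁ + d.2) a₁ a₂ a₃‖ := by
    intro n₁ _
    have hpair : ∑ n₂ ∈ F₂, ∑ n₃ ∈ F₃,
        LamK ρ (kR S) (𝓕⁻ (piece (c1 ρ) (eta0 ρ * S) n₁ a₁))
          (𝓕⁻ (piece (c2 ρ) (eta0 ρ * S) n₂ a₂)) (𝓕⁻ (piece c3 (eta0 ρ * S) n₃ a₃)) =
        ∑ p ∈ F₂ ×ˢ F₃, pf ρ S n₁ p.1 p.2 a₁ a₂ a₃ := by
      rw [Finset.sum_product]
      rfl
    rw [hpair]
    refine (norm_sum_le _ _).trans ?_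
    have hfil : ∑ p ∈ F₂ ×ˢ F₃, ‖pf ρ S n₁ p.1 p.2 a₁ a₂ a₃‖ =
        ∑ p ∈ (F₂ ×ˢ F₃).filter (fun p => Good M n₁ p.1 p.2),
          ‖pf ρ S n₁ p.1 p.2 a₁ a₂ a₃‖ := by
      rw [Finset.sum_filter_of_ne]
      intro p _ hp
      by_contra hng
      exact hp (by rw [hM S n₁ p.1 p.2 a₁ a₂ a₃ hS h₁ h₂ h₃ hng, norm_zero])
    rw [hfil]
    have hinj : ∑ p ∈ (F₂ ×ˢ F₃).filter (fun p => Good M n₁ p.1 p.2),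
          ‖pf ρ S n₁ p.1 p.2 a₁ a₂ a₃‖ =
        ∑ d ∈ ((F₂ ×ˢ F₃).filter (fun p => Good M n₁ p.1 p.2)).image
          (fun p => (p.1 - n₁, p.2 - n₁)), ‖pf ρ S n₁ (n₁ + d.1) (n₁ + d.2) a₁ a₂ a₃‖ := by
      rw [Finset.sum_image]
      · apply Finset.sum_congr rfl
        intro p _
        simp
      · intro p _ q _ hpq
        simp only [Prod.mk.injEq, sub_left_inj] at hpq
        exact Prod.ext hpq.1 hpq.2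
    rw [hinj]
    apply Finset.sum_le_sum_of_subset_of_nonneg
    · intro d hd
      rw [Finset.mem_image] at hd
      obtain ⟨p, hp, rfl⟩ := hd
      have hg := (Finset.mem_filter.mp hp).2
      have hg' : Good M 0 (p.1 - n₁) (p.2 - n₁) := by
        unfold Good at hg ⊢
        rw [show (0 : ℤ × ℤ) - (p.1 - n₁) = n₁ - p.1 by abel,
          show (0 : ℤ × ℤ) - (p.2 - n₁) = n₁ - p.2 by abel,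
          show p.1 - n₁ - (p.2 - n₁) = p.1 - p.2 by abel]
        exact hg
      exact (hD (p.1 - n₁, p.2 - n₁)).mpr hg'
    · intro d _ _
      exact norm_nonneg _
  refine ((norm_sum_le _ _).trans (Finset.sum_le_sum step)).trans (le_of_eq ?_)
  exact Finset.sum_comm

theorem good_finite (M : ℝ) : ∃ D : Finset ((ℤ × ℤ) × (ℤ × ℤ)),
    ∀ d : (ℤ × ℤ) × (ℤ × ℤ), d ∈ D ↔ Good M 0 d.1 d.2 := by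
  classical
  set B : Finset (ℤ × ℤ) := Finset.Icc (-⌈M⌉) ⌈M⌉ ×ˢ Finset.Icc (-⌈M⌉) ⌈M⌉ with hB
  refine ⟨(B ×ˢ B).filter (fun d => Good M 0 d.1 d.2), ?_⟩
  have hmem : ∀ n : ℤ × ℤ, ‖gi n‖ ≤ M → n ∈ B := by
    intro n hn
    obtain ⟨h1, h2⟩ := norm_gi_le n
    have key : ∀ k : ℤ, (|k| : ℝ) ≤ ‖gi n‖ → k ∈ Finset.Icc (-⌈M⌉) ⌈M⌉ := by
      intro k hk
      have h3 : (|k| : ℝ) ≤ (⌈M⌉ : ℝ) := (hk.trans hn).trans (Int.le_ceil M)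
      have h4 : |k| ≤ ⌈M⌉ := by exact_mod_cast h3
      rw [Finset.mem_Icc]
      exact abs_le.mp h4
    rw [hB, Finset.mem_product]
    exact ⟨key _ (by simpa using h1), key _ (by simpa using h2)⟩
  intro d
  rw [Finset.mem_filter]
  refine ⟨fun h => h.2, fun hd => ⟨?_, hd⟩⟩
  rw [Finset.mem_product]
  have g12 := hd.1.2
  have g13 := hd.2.1.2
  rw [zero_sub, gi_neg, norm_neg] at g12 g13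
  exact ⟨hmem _ g12, hmem _ g13⟩

/-- (S) from (SS), applied to `ρ` and `1 - ρ` -/
theorem smoothS_of (ρ : ℂ) (hi : ρ.im ≠ 0) (h0 : ρ.re ≠ 0) (h1 : ρ.re ≠ 1)
    (hss : PropSS ρ) (hss' : PropSS (1 - ρ)) :
    ∀ V ε : ℝ, 0 < V → 0 < ε → ∃ R₀ : ℝ, 1 ≤ R₀ ∧ ∀ R : ℝ, R₀ ≤ R →
      ∀ a₁ a₂ a₃ : ℂ → ℂ, Nice a₁ → Nice a₂ → Nice a₃ →
      (∀ z, ‖𝓕⁻ a₁ z‖ ≤ 1) → (∀ z, ‖𝓕⁻ a₂ z‖ ≤ 1) → (∀ z, ‖𝓕⁻ a₃ z‖ ≤ 1) →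
      (∫ ξ, ‖a₁ ξ‖ ^ 2) ≤ V → (∫ ξ, ‖a₂ ξ‖ ^ 2) ≤ V → (∫ ξ, ‖a₃ ξ‖ ^ 2) ≤ V →
      ‖Lam ρ (𝓕⁻ a₁) (𝓕⁻ a₂) (𝓕⁻ a₃) 0 - LamK ρ (PR R) (𝓕⁻ a₁) (𝓕⁻ a₂) (𝓕⁻ a₃)‖ ≤ ε := by
  classical
  intro V ε hV hε
  obtain ⟨M, hM⟩ := pf_zero ρ hi
  obtain ⟨D', hD'⟩ := good_finite M
  have hε' : 0 < ε / (D'.card + 1) := by positivity
  -- choose R₀ uniformly for all offsets
  have hex : ∀ d ∈ D', ∃ R₀ : ℝ, 1 ≤ R₀ ∧ ∀ R : ℝ, R₀ ≤ R → ∀ a₁ a₂ a₃ : ℂ → ℂ,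
      Nice a₁ → Nice a₂ → Nice a₃ →
      (∀ z, ‖𝓕⁻ a₁ z‖ ≤ 1) → (∀ z, ‖𝓕⁻ a₂ z‖ ≤ 1) → (∀ z, ‖𝓕⁻ a₃ z‖ ≤ 1) →
      (∫ ξ, ‖a₁ ξ‖ ^ 2) ≤ V → (∫ ξ, ‖a₂ ξ‖ ^ 2) ≤ V → (∫ ξ, ‖a₃ ξ‖ ^ 2) ≤ V →
      ∀ (J : ℕ) (F : ℕ → Finset (ℤ × ℤ)),
      ∑ j ∈ Finset.range J, ∑ n ∈ F j,
        ‖pf ρ (2 ^ j * R) n (n + d.1) (n + d.2) a₁ a₂ a₃‖ ≤ ε / (D'.card + 1) := by
    intro d hd
    exact offset_est ρ hi h0 h1 hss hss' M d.1 d.2 ((hD' d).mp hd) V _ hV hε'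
  choose! r hr1 hr2 using hex
  refine ⟨1 + ∑ d ∈ D', |r d|, by
    have : 0 ≤ ∑ d ∈ D', |r d| := Finset.sum_nonneg fun _ _ => abs_nonneg _
    linarith, ?_⟩
  intro R hR a₁ a₂ a₃ na₁ na₂ na₃ b₁ b₂ b₃ v₁ v₂ v₃
  have hsum0 : 0 ≤ ∑ d ∈ D', |r d| := Finset.sum_nonneg fun _ _ => abs_nonneg _
  have hRpos : 0 < R := by linarith
  have hRd : ∀ d ∈ D', r d ≤ R := by
    intro d hd
    have h1 : |r d| ≤ ∑ d ∈ D', |r d| :=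
      Finset.single_le_sum (f := fun d => |r d|) (fun _ _ => abs_nonneg _) hd
    have := le_abs_self (r d)
    linarith
  obtain ⟨J, hJ⟩ := lamK_tele ρ hi R hRpos a₁ a₂ a₃ na₁ na₂ na₃
  rw [hJ]
  have hF : ∀ j : ℕ, ∃ F : Finset (ℤ × ℤ),
      ‖LamK ρ (kR (2 ^ j * R)) (𝓕⁻ a₁) (𝓕⁻ a₂) (𝓕⁻ a₃)‖ ≤
      ∑ d ∈ D', ∑ n ∈ F, ‖pf ρ (2 ^ j * R) n (n + d.1) (n + d.2) a₁ a₂ a₃‖ := fun j =>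
    scale_le ρ hi M D' hD' hM (2 ^ j * R) (by positivity) a₁ a₂ a₃ na₁ na₂ na₃
  choose F hF using hF
  calc ‖∑ j ∈ Finset.range J, LamK ρ (kR (2 ^ j * R)) (𝓕⁻ a₁) (𝓕⁻ a₂) (𝓕⁻ a₃)‖
      ≤ ∑ j ∈ Finset.range J, ‖LamK ρ (kR (2 ^ j * R)) (𝓕⁻ a₁) (𝓕⁻ a₂) (𝓕⁻ a₃)‖ :=
        norm_sum_le _ _
    _ ≤ ∑ j ∈ Finset.range J, ∑ d ∈ D', ∑ n ∈ F j,
        ‖pf ρ (2 ^ j * R) n (n + d.1) (n + d.2) a₁ a₂ a₃‖ := Finset.sum_le_sum fun j _ => hF j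
    _ = ∑ d ∈ D', ∑ j ∈ Finset.range J, ∑ n ∈ F j,
        ‖pf ρ (2 ^ j * R) n (n + d.1) (n + d.2) a₁ a₂ a₃‖ := Finset.sum_comm
    _ ≤ ∑ d ∈ D', ε / (D'.card + 1) := Finset.sum_le_sum fun d hd =>
        hr2 d hd R (hRd d hd) a₁ a₂ a₃ na₁ na₂ na₃ b₁ b₂ b₃ v₁ v₂ v₃ J F
    _ = D'.card * (ε / (D'.card + 1)) := by rw [Finset.sum_const, nsmul_eq_mul]
    _ ≤ ε := by
        rw [mul_div_assoc', div_le_iff₀ (by positivity)]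
        nlinarith

end Pool.Agent.H24.Tri
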